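import Pool.Agent.helper37.L5.Spec

/-! Row LEI of project L5 (MP_baa4d7_al). -/

set_option autoImplicit false

namespace Pool.Agent.L5

open Pool.Agent.helper58.DC Pool.Agent.DI Pool.Agent.GR Pool.Agent.OB Pool.Agent.DR Pool.Agent.FI Pool.Agent.FI3 Pool.Agent.FI4 Pool.Agent.FI4I Pool.Agent.LE

theorem LEI_bij (hFEQ : FEQ_stmt) {G : Type} [Group G] [Finite G] (M : Ideal (integralClosure ℤ ℂ)) (K' : Subgroup G)
    (θ : G → ℂ) (l : G) : Set.BijOn (fun ψ : G → ℂ => cjF l ψ) (Bl M K' θ) (Bl M (cjS l K') (cjF l θ)) := by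
  refine ⟨fun ψ hψ => ?_, fun ψ _ ψ' _ h => ?_, fun η hη => ?_⟩
  · exact ((hFEQ G M l 1 K' K' K' θ ψ θ).2.2.2.2.2.2.1).1 hψ
  · have h1 := (hFEQ G M l⁻¹ l K' K' K' θ ψ θ).1
    have h2 := (hFEQ G M l⁻¹ l K' K' K' θ ψ' θ).1
    have h3 : cjF l⁻¹ (cjF l ψ) = cjF l⁻¹ (cjF l ψ') := by
      have h4 : cjF l ψ = cjF l ψ' := h
      rw [h4]
    rw [h1.2.1, h2.2.1, inv_mul_cancel, h1.2.2.2, h2.2.2.2] at h3
    exact h3
  · refine ⟨cjF l⁻¹ η, ?_, ?_⟩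
    · rw [(hFEQ G M l 1 K' K' K' θ (cjF l⁻¹ η) θ).2.2.2.2.2.2.1]
      have h1 := (hFEQ G M l l⁻¹ K' K' K' θ η θ).1
      rw [h1.2.1, mul_inv_cancel, h1.2.2.2]
      exact hη
    · show cjF l (cjF l⁻¹ η) = η
      have h1 := (hFEQ G M l l⁻¹ K' K' K' θ η θ).1
      rw [h1.2.1, mul_inv_cancel, h1.2.2.2]

theorem LEI (hFEQ : FEQ_stmt) (hQCJ : QCJ_stmt) : LEI_stmt := by
  intro p M _ G _ _ g H θ
  unfold Le
  refine (finsum_mem_eq_of_bijOn _ (LEI_bij hFEQ M H θ g) fun ψ _ => ?_).symm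
  exact ((hQCJ G g H).1 p ψ ψ).symm

end Pool.Agent.L5
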